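import Pool.Agent.C4K.StDet

/-!
# MRK: marked nodes on the paths of the new class
-/

set_option autoImplicit false

namespace Pool.Agent.C4K.H66

open Finset Pool.Agent.C4K Pool.Agent.C4K.Cl
open scoped Classical

theorem mrk (hP : PIMStmt) (hI : ITRStmt) : MRKStmt := by
  intro V _ C d T L1 hok hL1 hM om u m hne hinj
  have pim := hP V C d T hok
  have itr := hI V (cx om)
  have hnode : ∀ j, j < m → ∃ x, it (cx om) j u = some x := fun j hj =>
    Option.ne_none_iff_exists'.1 (hne j hj)
  have key : ∀ a, a + L1 ≤ m →
      ∃ j x, a ≤ j ∧ j < a + L1 ∧ it (cx om) j u = some x ∧ C.M x := by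
    intro a ha
    by_contra hcon
    push Not at hcon
    obtain ⟨v, hv⟩ := hnode a (by omega)
    have h1 : ∀ j, j < L1 → it C.f j v = it (cx om) (a + j) u := by
      intro j
      induction j with
      | zero =>
        intro _
        rw [add_zero, hv]
        rfl
      | succ j ih =>
        intro hj
        have h2 := ih (by omega)
        obtain ⟨w, hw⟩ := hnode (a + j) (by omega)
        rw [(hI V C.f).succ, h2, hw, ← add_assoc, itr.succ, hw]
        exact (pim.unm om w (hcon (a + j) w (by omega) (by omega) hw)).symm
    obtain ⟨j, x, hj, hx, hMx⟩ := hM v (fun j hj => by rw [h1 j hj]; exact hne _ (by omega))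
    rw [h1 j hj] at hx
    exact hcon (a + j) x (by omega) (by omega) hx hMx
  have hb : ∀ k : Fin (m / L1), (k : ℕ) * L1 + L1 ≤ m := by
    intro k
    have h1 : ((k : ℕ) + 1) * L1 ≤ m / L1 * L1 := Nat.mul_le_mul_right _ k.2
    have h2 := Nat.div_mul_le_self m L1
    rw [add_mul, one_mul] at h1
    omega
  choose J X h1 h2 h3 h4 using fun k : Fin (m / L1) => key (k * L1) (hb k)
  have h5 : (univ : Finset (Fin (m / L1))).card ≤
      (univ.filter fun x => C.M x ∧ ∃ j, j < m ∧ it (cx om) j u = some x).card := by
    refine Finset.card_le_card_of_injOn X (fun k _ => ?_) (fun k _ k' _ hk => ?_)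
    · rw [Finset.mem_coe, Finset.mem_filter]
      refine ⟨mem_univ _, h4 k, J k, ?_, h3 k⟩
      have := hb k
      have := h2 k
      omega
    · have hJ : J k = J k' := by
        have e1 : it (cx om) (J k) u = it (cx om) (J k') u := by
          rw [h3 k, h3 k']
          exact congrArg some hk
        rcases lt_trichotomy (J k) (J k') with h | h | h
        · exact absurd e1 (hinj _ _ h (by have := hb k'; have := h2 k'; omega))
        · exact h
        · exact absurd e1.symm (hinj _ _ h (by have := hb k; have := h2 k; omega))
      apply Fin.ext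
      have e1 := h1 k
      have e2 := h2 k
      have e3 := h1 k'
      have e4 := h2 k'
      rw [hJ] at e1 e2
      rcases lt_trichotomy (k : ℕ) (k' : ℕ) with h | h | h
      · have : ((k : ℕ) + 1) * L1 ≤ (k' : ℕ) * L1 := Nat.mul_le_mul_right _ h
        rw [add_mul, one_mul] at this
        omega
      · exact h
      · have : ((k' : ℕ) + 1) * L1 ≤ (k : ℕ) * L1 := Nat.mul_le_mul_right _ h
        rw [add_mul, one_mul] at this
        omega
  rwa [Finset.card_univ, Fintype.card_fin] at h5

end Pool.Agent.C4K.H66
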